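import Pool.Agent.Helper96.GP.NDefs
import Pool.Agent.Helper31.GP.G2c

/-!
# Block GP-DI: the average of the two vertical directions (MP_1b5634_co)
-/

open Finset
open scoped Classical

namespace GPG

noncomputable section

theorem mir_inj {n a b : ℕ} (ha : a < n ^ 2) (hb : b < n ^ 2) (h : mir n a = mir n b) : a = b := by
  rw [← mir_mir n a ha, ← mir_mir n b hb, h]

theorem image_mir_image {n : ℕ} {C : Finset ℕ} (hC : C ⊆ range (n ^ 2)) :
    (C.image (mir n)).image (mir n) = C := by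
  rw [image_image]
  ext x
  rw [mem_image]
  constructor
  · rintro ⟨y, hy, rfl⟩
    rw [Function.comp_apply, mir_mir n y (mem_range.1 (hC hy))]
    exact hy
  · intro hx
    exact ⟨x, hx, by rw [Function.comp_apply, mir_mir n x (mem_range.1 (hC hx))]⟩

theorem image_mir_sub {n : ℕ} {C : Finset ℕ} (hC : C ⊆ range (n ^ 2)) :
    C.image (mir n) ⊆ range (n ^ 2) := by
  intro x hx
  obtain ⟨y, hy, rfl⟩ := mem_image.1 hx
  exact mem_range.2 (mir_lt n y (mem_range.1 (hC hy)))

theorem mem_image_mir {n : ℕ} {C : Finset ℕ} (hC : C ⊆ range (n ^ 2)) {v : ℕ} (hv : v < n ^ 2) :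
    mir n v ∈ C.image (mir n) ↔ v ∈ C := by
  constructor
  · intro h
    obtain ⟨y, hy, he⟩ := mem_image.1 h
    rw [← mir_inj (mem_range.1 (hC hy)) hv he]
    exact hy
  · exact fun h => mem_image_of_mem _ h

/-- transport of sums over subsets by the reflection. -/
theorem sum_powerset_mir {n : ℕ} {V : Finset ℕ} (hV : V ⊆ range (n ^ 2)) (P : Finset ℕ → Prop)
    [DecidablePred P] [DecidablePred fun C : Finset ℕ => P (C.image (mir n))]
    (f : Finset ℕ → ℝ) :
    ∑ C ∈ V.powerset.filter (fun C => P (C.image (mir n))), f (C.image (mir n)) =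
      ∑ C ∈ (V.image (mir n)).powerset.filter P, f C := by
  refine Finset.sum_nbij' (fun C => C.image (mir n)) (fun C => C.image (mir n)) ?_ ?_ ?_ ?_ ?_
  · intro C hC
    rw [mem_filter, mem_powerset] at hC ⊢
    exact ⟨image_subset_image hC.1, hC.2⟩
  · intro C hC
    rw [mem_filter, mem_powerset] at hC ⊢
    have hCr : C ⊆ range (n ^ 2) := hC.1.trans (image_mir_sub hV)
    refine ⟨?_, ?_⟩
    · have := image_subset_image (f := mir n) hC.1
      rwa [image_mir_image hV] at this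
    · rw [image_mir_image hCr]
      exact hC.2
  · intro C hC
    rw [mem_filter, mem_powerset] at hC
    exact image_mir_image (hC.1.trans hV)
  · intro C hC
    rw [mem_filter, mem_powerset] at hC
    exact image_mir_image (hC.1.trans (image_mir_sub hV))
  · intro C _
    rfl

theorem noThree_of_mir {n : ℕ} {C : Finset ℕ} (hC : C ⊆ range (n ^ 2))
    (h : NoThree n (C.image (mir n))) : NoThree n C := by
  intro a ha b hb c hc hab hbc hac h0
  have la := mem_range.1 (hC ha)
  have lb := mem_range.1 (hC hb)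
  have lc := mem_range.1 (hC hc)
  refine h (mir n a) (mem_image_of_mem _ ha) (mir n b) (mem_image_of_mem _ hb) (mir n c)
    (mem_image_of_mem _ hc) (fun e => hab (mir_inj la lb e)) (fun e => hbc (mir_inj lb lc e))
    (fun e => hac (mir_inj la lc e)) ?_
  rw [det3_mir n a b c la lb lc, h0, neg_zero]

theorem gline_mir {n a b : ℕ} (ha : a < n ^ 2) (hb : b < n ^ 2) :
    gline n (mir n a) (mir n b) = (gline n a b).image (mir n) := by
  ext c
  rw [mem_gline, mem_image]
  constructor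
  · rintro ⟨hc, h0⟩
    refine ⟨mir n c, ?_, mir_mir n c hc⟩
    rw [mem_gline]
    refine ⟨mir_lt n c hc, ?_⟩
    have h1 := det3_mir n a b (mir n c) ha hb (mir_lt n c hc)
    rw [mir_mir n c hc, h0] at h1
    linarith
  · rintro ⟨d, hd, rfl⟩
    rw [mem_gline] at hd
    exact ⟨mir_lt n d hd.1, by rw [det3_mir n a b d ha hb hd.1, hd.2, neg_zero]⟩

theorem di_gline_sub (n a b : ℕ) : gline n a b ⊆ range (n ^ 2) := fun _ hc =>
  mem_range.2 (mem_gline.1 hc).1

theorem card_image_mir {n : ℕ} {C : Finset ℕ} (hC : C ⊆ range (n ^ 2)) :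
    (C.image (mir n)).card = C.card := by
  refine card_image_of_injOn ?_
  intro x hx y hy h
  exact mir_inj (mem_range.1 (hC hx)) (mem_range.1 (hC hy)) h

/-- average of the two vertical directions; `updist` is the statement of block GP-UD -/
theorem dist_of (updist : ∀ δ : ℝ, 0 < δ → δ < 1 → ∃ M : ℕ, 1 ≤ M ∧ ∃ C4 > (0 : ℝ),
    ∃ n0 : ℕ, ∀ n ≥ n0, ∀ V ⊆ range (n ^ 2), ∀ q : ℝ, 1 / Real.log n ≤ q → q ≤ 1 →
      (∀ a < n ^ 2, ∀ b < n ^ 2, a ≠ b → ((V ∩ ghalf n a b).card : ℝ) ≤ q * (0.5001 * n)) →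
      (∀ a < n ^ 2, ∀ b < n ^ 2, a ≠ b →
        ((V ∩ gline n a b).card : ℝ) ≤ q * (2 * (gline n a b).card + Real.log n ^ 8)) →
      (∀ w < n ^ 2, XX (Qup n M w) (fun p => rho n p.1 * rho n p.2) V ≤
        q ^ 2 * (0.9984 * (n : ℝ) ^ 2 * Real.log n)) →
      ∃ W : Finset ℕ → ℝ, (∀ C, 0 ≤ W C) ∧ (∀ C, W C ≠ 0 → C ⊆ V ∧ NoThree n C) ∧
        (∑ C ∈ V.powerset, W C = 1) ∧
        (∀ v ∈ V, (1 - δ) * rho n v / (q * n) ≤
          ∑ C ∈ V.powerset.filter (fun C => v ∈ C), W C) ∧
        (∀ u ∈ V, ∀ v ∈ V, u ≠ v →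
          ∑ C ∈ V.powerset.filter (fun C => u ∈ C ∧ v ∈ C), W C ≤ C4 / (q * n) ^ 2))
    (δ : ℝ) (hδ : 0 < δ) (hδ1 : δ < 1) : ∃ M : ℕ, 1 ≤ M ∧ ∃ C4 > (0 : ℝ),
    ∃ n0 : ℕ, ∀ n ≥ n0, ∀ V ⊆ range (n ^ 2), ∀ q : ℝ, 1 / Real.log n ≤ q → q ≤ 1 →
      (∀ a < n ^ 2, ∀ b < n ^ 2, a ≠ b → ((V ∩ ghalf n a b).card : ℝ) ≤ q * (0.5001 * n) ∧
        (((V.image (mir n)) ∩ ghalf n a b).card : ℝ) ≤ q * (0.5001 * n)) →
      (∀ a < n ^ 2, ∀ b < n ^ 2, a ≠ b →
        ((V ∩ gline n a b).card : ℝ) ≤ q * (2 * (gline n a b).card + Real.log n ^ 8)) →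
      (∀ w < n ^ 2, XX (Qup n M w) (fun p => rho n p.1 * rho n p.2) V ≤
        q ^ 2 * (0.9984 * (n : ℝ) ^ 2 * Real.log n) ∧
        XX (Qup n M w) (fun p => rho n p.1 * rho n p.2) (V.image (mir n)) ≤
        q ^ 2 * (0.9984 * (n : ℝ) ^ 2 * Real.log n)) →
      ∃ W : Finset ℕ → ℝ, (∀ C, 0 ≤ W C) ∧ (∀ C, W C ≠ 0 → C ⊆ V ∧ NoThree n C) ∧
        (∑ C ∈ V.powerset, W C = 1) ∧
        (∀ v ∈ V, (1 - δ) * (14287 / 10000) / (q * n) ≤
          ∑ C ∈ V.powerset.filter (fun C => v ∈ C), W C) ∧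
        (∀ u ∈ V, ∀ v ∈ V, u ≠ v →
          ∑ C ∈ V.powerset.filter (fun C => u ∈ C ∧ v ∈ C), W C ≤ C4 / (q * n) ^ 2) := by
  obtain ⟨M, hM, C4, hC4, n0, H⟩ := updist δ hδ hδ1
  refine ⟨M, hM, C4, hC4, n0, ?_⟩
  intro n hn V hV q hq hq1 h1 h2 h3
  obtain ⟨W1, p1, s1, t1, m1, d1⟩ := H n hn V hV q hq hq1 (fun a ha b hb hab => (h1 a ha b hb hab).1)
    h2 (fun w hw => (h3 w hw).1)
  have hV' := image_mir_sub hV
  have h2' : ∀ a < n ^ 2, ∀ b < n ^ 2, a ≠ b →
      (((V.image (mir n)) ∩ gline n a b).card : ℝ) ≤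
        q * (2 * (gline n a b).card + Real.log n ^ 8) := by
    intro a ha b hb hab
    have ha' := mir_lt n a ha
    have hb' := mir_lt n b hb
    have hab' : mir n a ≠ mir n b := fun e => hab (mir_inj ha hb e)
    have e1 := h2 (mir n a) ha' (mir n b) hb' hab'
    have e2 : (gline n (mir n a) (mir n b)).card = (gline n a b).card := by
      rw [gline_mir ha hb, card_image_mir (di_gline_sub n a b)]
    have e3 : ((V.image (mir n)) ∩ gline n a b).card = (V ∩ gline n (mir n a) (mir n b)).card := by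
      have e4 : (V ∩ gline n (mir n a) (mir n b)).image (mir n) =
          (V.image (mir n)) ∩ gline n a b := by
        ext x
        rw [mem_image, mem_inter, mem_image]
        constructor
        · rintro ⟨y, hy, rfl⟩
          rw [mem_inter] at hy
          refine ⟨⟨y, hy.1, rfl⟩, ?_⟩
          have h4 := hy.2
          rw [gline_mir ha hb, mem_image] at h4
          obtain ⟨z, hz, rfl⟩ := h4
          rw [mir_mir n z (mem_gline.1 hz).1]
          exact hz
        · rintro ⟨⟨y, hy, rfl⟩, hx⟩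
          refine ⟨y, ?_, rfl⟩
          rw [mem_inter]
          refine ⟨hy, ?_⟩
          rw [gline_mir ha hb, mem_image]
          exact ⟨mir n y, hx, mir_mir n y (mem_range.1 (hV hy))⟩
      rw [← e4, card_image_mir (inter_subset_left.trans hV)]
    rw [e3, ← e2]
    exact e1
  obtain ⟨W2, p2, s2, t2, m2, d2⟩ := H n hn (V.image (mir n)) hV' q hq hq1
    (fun a ha b hb hab => (h1 a ha b hb hab).2) h2' (fun w hw => (h3 w hw).2)
  refine ⟨fun C => if C ⊆ V then (W1 C + W2 (C.image (mir n))) / 2 else 0, ?_, ?_, ?_, ?_, ?_⟩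
  · intro C
    dsimp only
    split_ifs
    · have := p1 C
      have := p2 (C.image (mir n))
      linarith
    · exact le_refl _
  · intro C hC
    dsimp only at hC
    by_cases hCV : C ⊆ V
    · rw [if_pos hCV] at hC
      refine ⟨hCV, ?_⟩
      by_cases h4 : W1 C = 0
      · have h5 : W2 (C.image (mir n)) ≠ 0 := by
          intro h6
          exact hC (by rw [h4, h6]; norm_num)
        exact noThree_of_mir (hCV.trans hV) (s2 _ h5).2
      · exact (s1 C h4).2
    · exact absurd (if_neg hCV) hC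
  all_goals
    have hsum : ∀ (P : Finset ℕ → Prop) [DecidablePred P], ∑ C ∈ V.powerset.filter P,
        (if C ⊆ V then (W1 C + W2 (C.image (mir n))) / 2 else 0) =
        (∑ C ∈ V.powerset.filter P, W1 C + ∑ C ∈ V.powerset.filter P, W2 (C.image (mir n))) / 2 := by
      intro P _
      rw [← Finset.sum_add_distrib, Finset.sum_div]
      refine Finset.sum_congr rfl fun C hC => ?_
      rw [mem_filter, mem_powerset] at hC
      rw [if_pos hC.1]
  · have e1 := hsum (fun _ => True)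
    have e2 := sum_powerset_mir hV (fun _ => True) W2
    simp only [Finset.filter_true] at e1 e2
    rw [e1, e2, t1, t2]
    norm_num
  · intro v hv
    have hvn := mem_range.1 (hV hv)
    have e2 := sum_powerset_mir hV (fun C => mir n v ∈ C) W2
    have e3 : V.powerset.filter (fun C => mir n v ∈ C.image (mir n)) =
        V.powerset.filter (fun C => v ∈ C) := by
      refine Finset.filter_congr fun C hC => ?_
      rw [mem_powerset] at hC
      exact mem_image_mir (hC.trans hV) hvn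
    rw [e3] at e2
    rw [hsum, e2]
    have e4 := m1 v hv
    have e5 := m2 (mir n v) (mem_image_of_mem _ hv)
    have e6 := rho_mir n v hvn
    have e7 : (1 - δ) * (14287 / 10000) / (q * n) =
        ((1 - δ) * rho n v / (q * n) + (1 - δ) * rho n (mir n v) / (q * n)) / 2 := by
      rw [← add_div, ← mul_add, e6]
      ring
    rw [e7]
    linarith
  · intro u hu v hv huv
    have hun := mem_range.1 (hV hu)
    have hvn := mem_range.1 (hV hv)
    have e2 := sum_powerset_mir hV (fun C => mir n u ∈ C ∧ mir n v ∈ C) W2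
    have e3 : V.powerset.filter (fun C => mir n u ∈ C.image (mir n) ∧
        mir n v ∈ C.image (mir n)) = V.powerset.filter (fun C => u ∈ C ∧ v ∈ C) := by
      refine Finset.filter_congr fun C hC => ?_
      rw [mem_powerset] at hC
      rw [mem_image_mir (hC.trans hV) hvn, mem_image_mir (hC.trans hV) hun]
    rw [e3] at e2
    rw [hsum, e2]
    have e4 := d1 u hu v hv huv
    have e5 := d2 (mir n u) (mem_image_of_mem _ hu) (mir n v) (mem_image_of_mem _ hv)
      (fun e => huv (mir_inj hun hvn e))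
    linarith

end

end GPG
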