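import Pool.Agent.Helper96.GP.NDefs
import Pool.Agent.Helper40.GP.G3r
import Pool.Agent.Helper74.GP.NT1

/-!
# Block GP-H56: the conditions H5 and H6 for the grid (MP_1b5634_co)
-/

open Finset
open scoped Classical

namespace GPG

noncomputable section

/-- powers of `log n` are absorbed. -/
theorem h56_log_absorb (ε : ℝ) (hε : 0 < ε) : ∃ n0 : ℕ, 3 ≤ n0 ∧ ∀ n : ℕ, n0 ≤ n →
    16 * Real.log n ^ 2 * (n : ℝ) ^ (ε / 2) ≤ (n : ℝ) ^ ε := by
  have h1 := (isLittleO_log_rpow_rpow_atTop 2 (half_pos hε)).def (c := 1 / 16) (by norm_num)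
  have h2 := tendsto_natCast_atTop_atTop (R := ℝ) |>.eventually h1
  obtain ⟨n1, hn1⟩ := Filter.eventually_atTop.1 h2
  refine ⟨max n1 3, le_max_right _ _, fun n hn => ?_⟩
  have h3 := hn1 n (le_trans (le_max_left _ _) hn)
  have hn3 : 3 ≤ n := le_trans (le_max_right _ _) hn
  have hpos : (0 : ℝ) < n := by exact_mod_cast (by omega : 0 < n)
  rw [Real.rpow_two, Real.norm_of_nonneg (by positivity), Real.norm_of_nonneg (by positivity)] at h3
  have h4 : (0 : ℝ) ≤ (n : ℝ) ^ (ε / 2) := by positivity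
  calc 16 * Real.log n ^ 2 * (n : ℝ) ^ (ε / 2)
      ≤ 16 * (1 / 16 * (n : ℝ) ^ (ε / 2)) * (n : ℝ) ^ (ε / 2) := by gcongr
    _ = (n : ℝ) ^ (ε / 2) * (n : ℝ) ^ (ε / 2) := by ring
    _ = (n : ℝ) ^ ε := by rw [← Real.rpow_add hpos]; congr 1; ring

theorem h56_log_ge_one {n : ℕ} (hn : 3 ≤ n) : 1 ≤ Real.log n := by
  rw [Real.le_log_iff_exp_le (by exact_mod_cast (by omega : 0 < n))]
  have h1 := Real.exp_one_lt_d9
  have h2 : (3 : ℝ) ≤ n := by exact_mod_cast hn
  linarith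

/-- the factor `1 / q` is at most `log n`. -/
theorem h56_inv_q_le {n : ℕ} (hn : 3 ≤ n) {q : ℝ} (hq : 1 / Real.log n ≤ q) :
    0 < q ∧ 1 / q ≤ Real.log n := by
  have h1 : 0 < Real.log n := by linarith [h56_log_ge_one hn]
  have h2 : 0 < q := lt_of_lt_of_le (by positivity) hq
  refine ⟨h2, ?_⟩
  rw [div_le_iff₀ h2]
  rw [div_le_iff₀ h1] at hq
  linarith

/-- the weight is at most `4 log n / pd`. -/
theorem h56_r_le_log {n M : ℕ} (hn : 3 ≤ n) {V : Finset ℕ} (hV : V ⊆ range (n ^ 2)) {q : ℝ}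
    (hq : 1 / Real.log n ≤ q) {u y : ℕ} (huy : u ≠ y) :
    (gridLS n V M).r (lamV n V q) u y ≤ 4 * Real.log n * (1 / pd n u y) := by
  obtain ⟨hq0, hq1⟩ := h56_inv_q_le hn hq
  have h1 : 0 ≤ Real.log n := by linarith [h56_log_ge_one hn]
  refine (r_le n M V hV q hq0 (by omega) u y huy).trans ?_
  split_ifs
  · calc 4 / (q * pd n u y) = 4 * (1 / q) * (1 / (pd n u y : ℝ)) := by
          rw [one_div, one_div, div_eq_mul_inv, mul_inv]; ring
      _ ≤ 4 * Real.log n * (1 / (pd n u y : ℝ)) := by gcongr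
  · positivity

/-- H6 -/
theorem H6 (η : ℝ) (hη0 : 0 < η) : ∃ n0 : ℕ, ∀ n ≥ n0, ∀ M : ℕ, ∀ V ⊆ range (n ^ 2),
    ∀ q : ℝ, 1 / Real.log n ≤ q → q ≤ 1 → ∀ i ∈ (gridLS n V M).ls,
    ∀ w < (gridLS n V M).N, w ∉ i →
      ∑ y ∈ i, (gridLS n V M).r (lamV n V q) w y ≤ (n : ℝ) ^ (η / 100) := by
  obtain ⟨n1, h1⟩ := NT2 (η / 100 / 2) (by positivity)
  obtain ⟨n2, hn2, h2⟩ := h56_log_absorb (η / 100) (by positivity)
  refine ⟨max n1 n2, fun n hn M V hV q hq _ i hi w hw hwi => ?_⟩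
  have hn1' : n1 ≤ n := le_trans (le_max_left _ _) hn
  have hn2' : n2 ≤ n := le_trans (le_max_right _ _) hn
  have hn3 : 3 ≤ n := hn2.trans hn2'
  obtain ⟨hq0, -⟩ := h56_inv_q_le hn3 hq
  have hpow : (0 : ℝ) ≤ (n : ℝ) ^ (η / 100) := by positivity
  change w < n ^ 2 at hw
  -- the line of `i`
  have hline : ∃ a ∈ V, ∃ b ∈ V, a ≠ b ∧ i ⊆ gline n a b ∧ i ⊆ V ∧
      (i = V ∩ gline n a b ∨ pd n a b ≤ M) := by
    change i ∈ gls n V M at hi
    unfold gls at hi
    rw [mem_union, mem_image, mem_image] at hi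
    rcases hi with ⟨c, hc, rfl⟩ | ⟨c, hc, rfl⟩
    · rw [mem_filter, mem_product] at hc
      exact ⟨c.1, hc.1.1, c.2, hc.1.2, hc.2.1, inter_subset_right, inter_subset_left, Or.inl rfl⟩
    · rw [mem_filter, mem_product] at hc
      exact ⟨c.1, hc.1.1, c.2, hc.1.2, hc.2.1, inter_subset_right.trans (filter_subset _ _),
        inter_subset_left, Or.inr hc.2.2.1⟩
  obtain ⟨a, haV, b, hbV, hab, hig, hiV, hcase⟩ := hline
  have ha := mem_range.1 (hV haV)
  have hb := mem_range.1 (hV hbV)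
  by_cases hd : det3 n a b w = 0
  · -- all weights vanish
    have hz : ∀ y ∈ i, (gridLS n V M).r (lamV n V q) w y ≤ 0 := by
      intro y hy
      have hwy : w ≠ y := fun e => hwi (e ▸ hy)
      refine (r_le n M V hV q hq0 (by omega) w y hwy).trans ?_
      rw [if_neg]
      rintro ⟨hwV, _, hM⟩
      have hwg : w ∈ gline n a b := mem_gline.2 ⟨hw, hd⟩
      rcases hcase with rfl | hp
      · exact hwi (mem_inter.2 ⟨hwV, hwg⟩)
      · have h3 := (line_eq hab hwy hd (mem_gline.1 (hig hy)).2).2.1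
        omega
    exact (Finset.sum_nonpos hz).trans hpow
  · have h3 := h1 n hn1' a ha b hb w hw hab hd
    have h4 : ∑ y ∈ i, (gridLS n V M).r (lamV n V q) w y ≤
        ∑ y ∈ gline n a b, 4 * Real.log n * (1 / (pd n w y : ℝ)) := by
      calc ∑ y ∈ i, (gridLS n V M).r (lamV n V q) w y
          ≤ ∑ y ∈ i, 4 * Real.log n * (1 / (pd n w y : ℝ)) :=
            Finset.sum_le_sum fun y hy => h56_r_le_log hn3 hV hq (fun e => hwi (e ▸ hy))
        _ ≤ _ := by
            refine Finset.sum_le_sum_of_subset_of_nonneg hig fun y _ _ => ?_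
            have : 0 ≤ Real.log n := by linarith [h56_log_ge_one hn3]
            positivity
    rw [← Finset.mul_sum] at h4
    have h5 := h2 n hn2'
    have h6 := h56_log_ge_one hn3
    have h7 : (0 : ℝ) ≤ (n : ℝ) ^ (η / 100 / 2) := by positivity
    calc ∑ y ∈ i, (gridLS n V M).r (lamV n V q) w y
        ≤ 4 * Real.log n * ∑ y ∈ gline n a b, (1 / (pd n w y : ℝ)) := h4
      _ ≤ 4 * Real.log n * (n : ℝ) ^ (η / 100 / 2) := by
          have : 0 ≤ 4 * Real.log n := by linarith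
          gcongr
      _ ≤ 16 * Real.log n ^ 2 * (n : ℝ) ^ (η / 100 / 2) := by
          have h8 : 4 * Real.log n ≤ 16 * Real.log n ^ 2 := by nlinarith
          exact mul_le_mul_of_nonneg_right h8 h7
      _ ≤ _ := h5

theorem h56_det3_swap (n a b c : ℕ) : det3 n a c b = - det3 n a b c := by
  unfold det3; ring

/-- H5 -/
theorem H5 (η : ℝ) (hη0 : 0 < η) : ∃ n0 : ℕ, ∀ n ≥ n0, ∀ M : ℕ, ∀ V ⊆ range (n ^ 2),
    ∀ q : ℝ, 1 / Real.log n ≤ q → q ≤ 1 → ∀ u < (gridLS n V M).N, ∀ v < (gridLS n V M).N, u ≠ v →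
      ∑ y ∈ (range (gridLS n V M).N).filter
          (fun y => y ≠ u ∧ y ≠ v ∧ ¬ (gridLS n V M).Coll y u v),
        (gridLS n V M).r (lamV n V q) u y * (gridLS n V M).r (lamV n V q) v y ≤
          (n : ℝ) ^ (η / 100) := by
  obtain ⟨n1, h1⟩ := NT1 (η / 100 / 2) (by positivity)
  obtain ⟨n2, hn2, h2⟩ := h56_log_absorb (η / 100) (by positivity)
  refine ⟨max n1 n2, fun n hn M V hV q hq _ u hu v hv huv => ?_⟩
  have hn1' : n1 ≤ n := le_trans (le_max_left _ _) hn
  have hn2' : n2 ≤ n := le_trans (le_max_right _ _) hn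
  have hn3 : 3 ≤ n := hn2.trans hn2'
  obtain ⟨hq0, -⟩ := h56_inv_q_le hn3 hq
  have hlog := h56_log_ge_one hn3
  change u < n ^ 2 at hu
  change v < n ^ 2 at hv
  have hN : (gridLS n V M).N = n ^ 2 := rfl
  rw [hN]
  -- termwise bound
  have hterm : ∀ y ∈ (range (n ^ 2)).filter
      (fun y => y ≠ u ∧ y ≠ v ∧ ¬ (gridLS n V M).Coll y u v),
      (gridLS n V M).r (lamV n V q) u y * (gridLS n V M).r (lamV n V q) v y ≤
        if det3 n u v y ≠ 0 then 16 * Real.log n ^ 2 * (1 / ((pd n u y : ℝ) * pd n v y)) else 0 := by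
    intro y hy
    rw [mem_filter, mem_range] at hy
    obtain ⟨hyn, hyu, hyv, hcoll⟩ := hy
    have b1 := r_nonneg n M V hV q hq0 u y
    have b2 := r_nonneg n M V hV q hq0 v y
    split_ifs with hd
    · have c1 := h56_r_le_log (M := M) hn3 hV hq (Ne.symm hyu)
      have c2 := h56_r_le_log (M := M) hn3 hV hq (Ne.symm hyv)
      have c3 : (0 : ℝ) ≤ 4 * Real.log n * (1 / pd n u y) := by positivity
      calc (gridLS n V M).r (lamV n V q) u y * (gridLS n V M).r (lamV n V q) v y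
          ≤ (4 * Real.log n * (1 / pd n u y)) * (4 * Real.log n * (1 / pd n v y)) := by gcongr
        _ = 16 * Real.log n ^ 2 * (1 / ((pd n u y : ℝ) * pd n v y)) := by
            rw [one_div, one_div, one_div, mul_inv]; ring
    · push Not at hd
      have c1 := r_le n M V hV q hq0 (by omega) u y (Ne.symm hyu)
      have c2 := r_le n M V hV q hq0 (by omega) v y (Ne.symm hyv)
      by_cases huV : u ∈ V ∧ y ∈ V ∧ M < pd n u y
      · by_cases hvV : v ∈ V ∧ y ∈ V ∧ M < pd n v y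
        · exfalso
          apply hcoll
          refine ⟨V ∩ gline n u y, ?_, ?_, ?_, ?_⟩
          · change V ∩ gline n u y ∈ gls n V M
            unfold gls
            rw [mem_union]
            left
            rw [mem_image]
            refine ⟨(u, y), ?_, rfl⟩
            rw [mem_filter, mem_product]
            exact ⟨⟨huV.1, huV.2.1⟩, Ne.symm hyu, huV.2.2⟩
          · exact mem_inter.2 ⟨huV.2.1, mem_gline.2 ⟨hyn, det3_self2 n u y⟩⟩
          · exact mem_inter.2 ⟨huV.1, mem_gline.2 ⟨hu, det3_self1 n u y⟩⟩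
          · refine mem_inter.2 ⟨hvV.1, mem_gline.2 ⟨hv, ?_⟩⟩
            rw [h56_det3_swap, hd, neg_zero]
        · rw [if_neg hvV] at c2
          have : (gridLS n V M).r (lamV n V q) v y = 0 := le_antisymm c2 b2
          rw [this, mul_zero]
      · rw [if_neg huV] at c1
        have : (gridLS n V M).r (lamV n V q) u y = 0 := le_antisymm c1 b1
        rw [this, zero_mul]
  have h3 := h1 n hn1' u hu v hv huv
  have h5 := h2 n hn2'
  calc ∑ y ∈ (range (n ^ 2)).filter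
          (fun y => y ≠ u ∧ y ≠ v ∧ ¬ (gridLS n V M).Coll y u v),
        (gridLS n V M).r (lamV n V q) u y * (gridLS n V M).r (lamV n V q) v y
      ≤ ∑ y ∈ (range (n ^ 2)).filter
          (fun y => y ≠ u ∧ y ≠ v ∧ ¬ (gridLS n V M).Coll y u v),
        (if det3 n u v y ≠ 0 then 16 * Real.log n ^ 2 * (1 / ((pd n u y : ℝ) * pd n v y)) else 0) :=
        Finset.sum_le_sum hterm
    _ ≤ ∑ y ∈ range (n ^ 2),
        (if det3 n u v y ≠ 0 then 16 * Real.log n ^ 2 * (1 / ((pd n u y : ℝ) * pd n v y)) else 0) := by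
        refine Finset.sum_le_sum_of_subset_of_nonneg (filter_subset _ _) fun y _ _ => ?_
        split_ifs
        · positivity
        · exact le_refl _
    _ = 16 * Real.log n ^ 2 * ∑ y ∈ (range (n ^ 2)).filter (fun y => det3 n u v y ≠ 0),
          (1 / ((pd n u y : ℝ) * pd n v y)) := by
        rw [Finset.mul_sum, Finset.sum_filter]
    _ ≤ 16 * Real.log n ^ 2 * (n : ℝ) ^ (η / 100 / 2) := by gcongr
    _ ≤ _ := h5

end

end GPG
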